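import Mathlib
import Pool.Agent.H33.BDFP.Stmts

attribute [local instance] Pool.Agent.H33.BDFP.NV.instNACG Pool.Agent.H33.BDFP.NV.instModule
  Pool.Agent.H33.BDFP.NV.instNormedSpace Pool.Agent.H33.BDFP.NV.instFD
  Pool.Agent.H33.BDFP.NV.instComplete

/-!
Module PEL of the project BDFP: the decomposition method of Pelczynski for `l^p`.
-/

open scoped ENNReal NNReal

noncomputable section

namespace Pool.Agent.H19.BDFP

open Pool.Agent.H33.BDFP

section

variable {ι : Type} {E : ι → Type} [∀ i, NormedAddCommGroup (E i)] [∀ i, NormedSpace ℂ (E i)]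
variable {X : Type} [NormedAddCommGroup X] [NormedSpace ℂ X]
variable {p : ℝ≥0∞} [Fact (1 ≤ p)]

lemma toReal_pos_of (hp : p ≠ ∞) : 0 < p.toReal :=
  ENNReal.toReal_pos (zero_lt_one.trans_le (Fact.out : (1 : ℝ≥0∞) ≤ p)).ne' hp

/-- a bounded linear map into an `l^p` sum from its coordinates -/
lemma exists_clm (hp : p ≠ ∞) (T : X →ₗ[ℂ] (∀ i, E i)) (C : ℝ) (hC : 0 ≤ C)
    (h : ∀ (x : X) (s : Finset ι), ∑ i ∈ s, ‖T x i‖ ^ p.toReal ≤ (C * ‖x‖) ^ p.toReal) :
    ∃ T' : X →L[ℂ] lp E p, ∀ x i, T' x i = T x i := by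
  have hp0 := toReal_pos_of (p := p) hp
  have hmem : ∀ x, Memℓp (fun i => T x i) p := fun x => memℓp_gen' (h x)
  let L : X →ₗ[ℂ] lp E p :=
    { toFun := fun x => ⟨fun i => T x i, hmem x⟩
      map_add' := fun x y => by
        refine lp.ext (funext fun i => ?_)
        change T (x + y) i = T x i + T y i
        rw [map_add]; rfl
      map_smul' := fun c x => by
        refine lp.ext (funext fun i => ?_)
        change T (c • x) i = c • T x i
        rw [map_smul]; rfl }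
  refine ⟨L.mkContinuous C fun x => ?_, fun x i => rfl⟩
  exact lp.norm_le_of_forall_sum_le hp0 (mul_nonneg hC (norm_nonneg _)) fun s => h x s

end

section shift

variable {F : Type} [NormedAddCommGroup F] [NormedSpace ℂ F] {p : ℝ≥0∞} [Fact (1 ≤ p)]

/-- right shift -/
lemma exists_right (hp : p ≠ ∞) : ∃ R : lp (fun _ : ℕ => F) p →L[ℂ] lp (fun _ : ℕ => F) p,
    (∀ x, R x 0 = 0) ∧ ∀ x n, R x (n + 1) = x n := by
  have hp0 := toReal_pos_of (p := p) hp
  let T : lp (fun _ : ℕ => F) p →ₗ[ℂ] (∀ _ : ℕ, F) :=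
    { toFun := fun x n => if n = 0 then 0 else x (n - 1)
      map_add' := fun x y => by
        funext n
        by_cases hn : n = 0
        · simp [hn]
        · simp [hn]
      map_smul' := fun c x => by
        funext n
        by_cases hn : n = 0
        · simp [hn]
        · simp [hn] }
  obtain ⟨R, hR⟩ := exists_clm (E := fun _ : ℕ => F) hp T 1 zero_le_one (fun x s => by
    rw [one_mul]
    obtain ⟨N, hN⟩ := s.exists_nat_subset_range
    calc ∑ i ∈ s, ‖T x i‖ ^ p.toReal ≤ ∑ i ∈ Finset.range (N + 1), ‖T x i‖ ^ p.toReal :=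
          Finset.sum_le_sum_of_subset_of_nonneg
            (hN.trans (Finset.range_mono (Nat.le_succ N))) (fun _ _ _ => by positivity)
      _ = ∑ i ∈ Finset.range N, ‖x i‖ ^ p.toReal := by
          rw [Finset.sum_range_succ']
          have h0 : T x 0 = 0 := rfl
          have h1 : ∀ i, T x (i + 1) = x i := fun i => rfl
          simp only [h0, h1, norm_zero, Real.zero_rpow hp0.ne', add_zero]
      _ ≤ ‖x‖ ^ p.toReal := lp.sum_rpow_le_norm_rpow hp0 x _)
  exact ⟨R, fun x => hR x 0, fun x n => hR x (n + 1)⟩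

/-- left shift -/
lemma exists_left (hp : p ≠ ∞) : ∃ L : lp (fun _ : ℕ => F) p →L[ℂ] lp (fun _ : ℕ => F) p,
    ∀ x n, L x n = x (n + 1) := by
  have hp0 := toReal_pos_of (p := p) hp
  let T : lp (fun _ : ℕ => F) p →ₗ[ℂ] (∀ _ : ℕ, F) :=
    { toFun := fun x n => x (n + 1)
      map_add' := fun x y => rfl
      map_smul' := fun c x => rfl }
  obtain ⟨R, hR⟩ := exists_clm (E := fun _ : ℕ => F) hp T 1 zero_le_one (fun x s => by
    rw [one_mul]
    calc ∑ i ∈ s, ‖T x i‖ ^ p.toReal =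
        ∑ i ∈ s.map ⟨fun n => n + 1, fun a b h => by simpa using h⟩, ‖x i‖ ^ p.toReal := by
          rw [Finset.sum_map]
          rfl
      _ ≤ ‖x‖ ^ p.toReal := lp.sum_rpow_le_norm_rpow hp0 x _)
  exact ⟨R, fun x n => hR x n⟩

/-- The decomposition method: a complemented subspace is absorbed. -/
lemma absorb (hp : p ≠ ∞) {X : Type} [NormedAddCommGroup X] [NormedSpace ℂ X]
    (i : X →L[ℂ] F) (q : F →L[ℂ] X) (h : q ∘L i = ContinuousLinearMap.id ℂ X) :
    Nonempty ((X × lp (fun _ : ℕ => F) p) ≃L[ℂ] lp (fun _ : ℕ => F) p) := by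
  have hqi : ∀ x, q (i x) = x := fun x => by
    have := congrArg (fun f : X →L[ℂ] X => f x) h
    exact this
  obtain ⟨R, hR0, hR1⟩ := exists_right (F := F) hp
  obtain ⟨L, hL⟩ := exists_left (F := F) hp
  let P : F →L[ℂ] F := i ∘L q
  have hP : ∀ y, P y = i (q y) := fun y => rfl
  have hPP : ∀ y, P (P y) = P y := fun y => by rw [hP, hP, hqi]
  let Pt : lp (fun _ : ℕ => F) p →L[ℂ] lp (fun _ : ℕ => F) p :=
    lp.mapCLM p (fun _ => P) (norm_nonneg P) (fun _ => le_rfl)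
  have hPt : ∀ (y : lp (fun _ : ℕ => F) p) n, Pt y n = P (y n) := fun y n => rfl
  let S0 : F →L[ℂ] lp (fun _ : ℕ => F) p := lp.singleContinuousLinearMap ℂ (fun _ : ℕ => F) p 0
  have hS00 : ∀ y : F, S0 y 0 = y := fun y =>
    lp.single_apply_self (E := fun _ : ℕ => F) p 0 y
  have hS01 : ∀ (y : F) n, S0 y (n + 1) = 0 := fun y n =>
    lp.single_apply_ne (E := fun _ : ℕ => F) p 0 y (Nat.succ_ne_zero n)
  let T : (X × lp (fun _ : ℕ => F) p) →L[ℂ] lp (fun _ : ℕ => F) p :=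
    (S0 ∘L i) ∘L ContinuousLinearMap.fst ℂ _ _ +
      (R ∘L Pt + (ContinuousLinearMap.id ℂ _ - Pt)) ∘L ContinuousLinearMap.snd ℂ _ _
  let U : lp (fun _ : ℕ => F) p →L[ℂ] (X × lp (fun _ : ℕ => F) p) :=
    (q ∘L lp.evalCLM ℂ (fun _ : ℕ => F) p 0).prod (L ∘L Pt + (ContinuousLinearMap.id ℂ _ - Pt))
  have hT0 : ∀ z, T z 0 = i z.1 + (z.2 0 - P (z.2 0)) := fun z => by
    change S0 (i z.1) 0 + (R (Pt z.2) 0 + (z.2 0 - Pt z.2 0)) = _
    rw [hS00, hR0, hPt, zero_add]
  have hT1 : ∀ z n, T z (n + 1) = P (z.2 n) + (z.2 (n + 1) - P (z.2 (n + 1))) := fun z n => by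
    change S0 (i z.1) (n + 1) + (R (Pt z.2) (n + 1) + (z.2 (n + 1) - Pt z.2 (n + 1))) = _
    rw [hS01, hR1, hPt, hPt, zero_add]
  have hU1 : ∀ z, (U z).1 = q (z 0) := fun z => rfl
  have hU2 : ∀ z n, (U z).2 n = P (z (n + 1)) + (z n - P (z n)) := fun z n => by
    change L (Pt z) n + (z n - Pt z n) = _
    rw [hL, hPt, hPt]
  refine ⟨ContinuousLinearEquiv.equivOfInverse T U ?_ ?_⟩
  · intro z
    refine Prod.ext ?_ ?_
    · rw [hU1, hT0, map_add, hqi, map_sub, hP, hqi, sub_self, add_zero]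
    · refine lp.ext (funext fun n => ?_)
      rw [hU2]
      cases n with
      | zero =>
        rw [hT0, hT1]
        simp only [map_add, map_sub, hPP, sub_self, add_zero]
        rw [hP (i z.1), hqi]
        abel
      | succ n =>
        rw [hT1, hT1]
        simp only [map_add, map_sub, hPP, sub_self, add_zero]
        abel
  · intro z
    refine lp.ext (funext fun n => ?_)
    cases n with
    | zero =>
      rw [hT0, hU1, hU2]
      simp only [map_add, map_sub, hPP, sub_self, add_zero]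
      rw [← hP]
      abel
    | succ n =>
      rw [hT1, hU2, hU2]
      simp only [map_add, map_sub, hPP, sub_self, add_zero]
      abel

end shift

section double

variable {p : ℝ≥0∞} [Fact (1 ≤ p)]

lemma exists_flat (hp : p ≠ ∞) : ∃ Φ : lp (fun _ : ℕ => LP p) p →L[ℂ] LP p,
    ∀ f n, Φ f n = f (Nat.unpair n).1 (Nat.unpair n).2 := by
  have hp0 := toReal_pos_of (p := p) hp
  let T : lp (fun _ : ℕ => LP p) p →ₗ[ℂ] (∀ _ : ℕ, ℂ) :=
    { toFun := fun f n => f (Nat.unpair n).1 (Nat.unpair n).2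
      map_add' := fun x y => rfl
      map_smul' := fun c x => rfl }
  obtain ⟨R, hR⟩ := exists_clm (E := fun _ : ℕ => ℂ) hp T 1 zero_le_one (fun x s => by
    rw [one_mul]
    let s' : Finset (ℕ × ℕ) := s.map Nat.pairEquiv.symm.toEmbedding
    calc ∑ i ∈ s, ‖T x i‖ ^ p.toReal = ∑ z ∈ s', ‖x z.1 z.2‖ ^ p.toReal := by
          rw [Finset.sum_map]
          rfl
      _ ≤ ∑ z ∈ (s'.image Prod.fst) ×ˢ (s'.image Prod.snd), ‖x z.1 z.2‖ ^ p.toReal := by
          refine Finset.sum_le_sum_of_subset_of_nonneg (fun z hz => ?_) (fun _ _ _ => by positivity)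
          exact Finset.mem_product.2 ⟨Finset.mem_image_of_mem _ hz, Finset.mem_image_of_mem _ hz⟩
      _ = ∑ a ∈ s'.image Prod.fst, ∑ b ∈ s'.image Prod.snd, ‖x a b‖ ^ p.toReal :=
          Finset.sum_product _ _ _
      _ ≤ ∑ a ∈ s'.image Prod.fst, ‖x a‖ ^ p.toReal :=
          Finset.sum_le_sum fun a _ => lp.sum_rpow_le_norm_rpow hp0 (x a) _
      _ ≤ ‖x‖ ^ p.toReal := lp.sum_rpow_le_norm_rpow hp0 x _)
  exact ⟨R, fun x n => hR x n⟩

lemma exists_unflat (hp : p ≠ ∞) : ∃ Ψ : LP p →L[ℂ] lp (fun _ : ℕ => LP p) p,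
    ∀ g i j, Ψ g i j = g (Nat.pair i j) := by
  have hp0 := toReal_pos_of (p := p) hp
  -- the rows
  have hrow : ∀ i : ℕ, ∃ R : LP p →L[ℂ] LP p, ∀ g j, R g j = g (Nat.pair i j) := by
    intro i
    let T : LP p →ₗ[ℂ] (∀ _ : ℕ, ℂ) :=
      { toFun := fun g j => g (Nat.pair i j)
        map_add' := fun x y => rfl
        map_smul' := fun c x => rfl }
    obtain ⟨R, hR⟩ := exists_clm (E := fun _ : ℕ => ℂ) hp T 1 zero_le_one (fun x s => by
      rw [one_mul]
      calc ∑ j ∈ s, ‖T x j‖ ^ p.toReal =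
          ∑ n ∈ s.map ⟨fun j => Nat.pair i j, fun a b h => (Nat.pair_eq_pair.1 h).2⟩,
            ‖x n‖ ^ p.toReal := by
            rw [Finset.sum_map]
            rfl
        _ ≤ ‖x‖ ^ p.toReal := lp.sum_rpow_le_norm_rpow hp0 x _)
    exact ⟨R, fun x n => hR x n⟩
  choose Q hQ using hrow
  let T : LP p →ₗ[ℂ] (∀ _ : ℕ, LP p) :=
    { toFun := fun g i => Q i g
      map_add' := fun x y => by
        funext i
        exact map_add _ _ _
      map_smul' := fun c x => by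
        funext i
        exact map_smul _ _ _ }
  obtain ⟨R, hR⟩ := exists_clm (E := fun _ : ℕ => LP p) hp T 1 zero_le_one (fun x s => by
    rw [one_mul]
    have h1 : ∀ i, ‖T x i‖ ^ p.toReal = ∑' j, ‖x (Nat.pair i j)‖ ^ p.toReal := fun i => by
      rw [lp.norm_rpow_eq_tsum hp0]
      refine tsum_congr fun j => ?_
      change ‖Q i x j‖ ^ p.toReal = _
      rw [hQ]
    have h2 : ∀ i, Summable (fun j => ‖x (Nat.pair i j)‖ ^ p.toReal) := fun i => by
      have := (lp.memℓp (Q i x)).summable hp0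
      refine this.congr fun j => ?_
      rw [hQ]
    rw [Finset.sum_congr rfl fun i _ => h1 i, ← Summable.tsum_finsetSum fun i _ => h2 i]
    refine Real.tsum_le_of_sum_le (fun j => by positivity) fun t => ?_
    rw [Finset.sum_comm, ← Finset.sum_product']
    calc ∑ z ∈ s ×ˢ t, ‖x (Nat.pair z.1 z.2)‖ ^ p.toReal =
        ∑ n ∈ (s ×ˢ t).map Nat.pairEquiv.toEmbedding, ‖x n‖ ^ p.toReal := by
          rw [Finset.sum_map]
          rfl
      _ ≤ ‖x‖ ^ p.toReal := lp.sum_rpow_le_norm_rpow hp0 x _)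
  refine ⟨R, fun g i j => ?_⟩
  rw [hR g i]
  exact hQ i g j

lemma double_equiv (hp : p ≠ ∞) : Nonempty (lp (fun _ : ℕ => LP p) p ≃L[ℂ] LP p) := by
  obtain ⟨Φ, hΦ⟩ := exists_flat (p := p) hp
  obtain ⟨Ψ, hΨ⟩ := exists_unflat (p := p) hp
  refine ⟨ContinuousLinearEquiv.equivOfInverse Φ Ψ ?_ ?_⟩
  · intro f
    refine lp.ext (funext fun i => lp.ext (funext fun j => ?_))
    rw [hΨ, hΦ, Nat.unpair_pair]
  · intro g
    refine lp.ext (funext fun n => ?_)
    rw [hΦ, hΨ, Nat.pair_unpair]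

end double

/-- Module PEL. -/
theorem pel : PelStmt := by
  intro p _ hp
  obtain ⟨e⟩ := double_equiv (p := p) hp
  have h3 : ∀ (X : Type) [NormedAddCommGroup X] [NormedSpace ℂ X], PComp p X →
      Nonempty ((X × LP p) ≃L[ℂ] LP p) := by
    intro X _ _ hX
    obtain ⟨i, q, hiq⟩ := hX
    obtain ⟨f⟩ := absorb (F := LP p) hp i q hiq
    exact ⟨(((ContinuousLinearEquiv.refl ℂ X).prodCongr e.symm).trans f).trans e⟩
  have h2 : Nonempty ((LP p × LP p) ≃L[ℂ] LP p) :=
    h3 (LP p) ⟨ContinuousLinearMap.id ℂ _, ContinuousLinearMap.id ℂ _, rfl⟩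
  refine ⟨⟨e⟩, h2, fun X _ _ hX => h3 X hX, ?_⟩
  intro X Y _ _ _ _ hX hY
  obtain ⟨i, q, hiq⟩ := hX
  obtain ⟨j, r, hjr⟩ := hY
  obtain ⟨g⟩ := h2
  refine ⟨(g : (LP p × LP p) →L[ℂ] LP p) ∘L (i.prodMap j),
    (q.prodMap r) ∘L (g.symm : LP p →L[ℂ] (LP p × LP p)), ?_⟩
  refine ContinuousLinearMap.ext fun z => ?_
  have h1 : q (i z.1) = z.1 := congrArg (fun f : X →L[ℂ] X => f z.1) hiq
  have h2 : r (j z.2) = z.2 := congrArg (fun f : Y →L[ℂ] Y => f z.2) hjr
  change (q (g.symm (g (i z.1, j z.2))).1, r (g.symm (g (i z.1, j z.2))).2) = z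
  rw [ContinuousLinearEquiv.symm_apply_apply, h1, h2]

end Pool.Agent.H19.BDFP
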