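import Mathlib
import Pool.Agent.H33.BDFP.Stmts
import Pool.Agent.H19.BDFP.PEL

attribute [local instance] Pool.Agent.H33.BDFP.NV.instNACG Pool.Agent.H33.BDFP.NV.instModule
  Pool.Agent.H33.BDFP.NV.instNormedSpace Pool.Agent.H33.BDFP.NV.instFD
  Pool.Agent.H33.BDFP.NV.instComplete

/-!
Module TRIV of the project BDFP: trivial extensions are absorbed.
-/

open scoped ENNReal NNReal

noncomputable section

namespace Pool.Agent.H19.BDFP

open Pool.Agent.H33.BDFP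

section

variable {X : Type} [NormedAddCommGroup X] [NormedSpace ℂ X]

lemma calkin_norm_le (T : X →L[ℂ] X) : ‖calkinMk X T‖ ≤ ‖T‖ :=
  Submodule.Quotient.norm_mk_le (compactIdeal X) T

lemma calkin_norm_nonneg (x : Calkin X) : 0 ≤ ‖x‖ := norm_nonneg x

lemma calkin_norm_lift (T : X →L[ℂ] X) {ε : ℝ} (hε : 0 < ε) :
    ∃ K : X →L[ℂ] X, IsCompactOperator (⇑K) ∧ ‖T - K‖ < ‖calkinMk X T‖ + ε := by
  obtain ⟨S, hS, hS'⟩ := Submodule.Quotient.norm_mk_lt (S := compactIdeal X) (calkinMk X T) hε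
  refine ⟨T - S, ?_, ?_⟩
  · have h1 : calkinMk X S = calkinMk X T := hS
    have h2 : EqK T S := (calkinMk_eq_iff T S).1 h1.symm
    exact h2
  · rw [sub_sub_cancel]
    exact hS'

/-- compression decreases the Calkin norm -/
lemma calkin_norm_compress {Y : Type} [NormedAddCommGroup Y] [NormedSpace ℂ Y]
    (T : X →L[ℂ] X) (T' : Y →L[ℂ] Y) (A : X →L[ℂ] Y) (B : Y →L[ℂ] X)
    (h : B ∘L T' ∘L A = T) : ‖calkinMk X T‖ ≤ ‖B‖ * ‖A‖ * ‖calkinMk Y T'‖ := by
  refine le_of_forall_pos_le_add fun ε hε => ?_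
  obtain ⟨K, hK, hK'⟩ := calkin_norm_lift T' (ε := ε / (‖B‖ * ‖A‖ + 1)) (by positivity)
  have h1 : EqK T (B ∘L (T' - K) ∘L A) := by
    have h2 : T - (B ∘L (T' - K) ∘L A) = B ∘L K ∘L A := by
      rw [← h]
      refine ContinuousLinearMap.ext fun x => ?_
      change B (T' (A x)) - B (T' (A x) - K (A x)) = B (K (A x))
      rw [map_sub, sub_sub_cancel]
    change IsCompactOperator _
    rw [h2]
    exact (hK.comp_clm A).clm_comp B
  rw [(calkinMk_eq_iff _ _).2 h1]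
  calc ‖calkinMk X (B ∘L (T' - K) ∘L A)‖ ≤ ‖B ∘L (T' - K) ∘L A‖ := calkin_norm_le _
    _ ≤ ‖B‖ * (‖T' - K‖ * ‖A‖) :=
        (ContinuousLinearMap.opNorm_comp_le _ _).trans
          (mul_le_mul_of_nonneg_left (ContinuousLinearMap.opNorm_comp_le _ _) (norm_nonneg _))
    _ ≤ ‖B‖ * ((‖calkinMk Y T'‖ + ε / (‖B‖ * ‖A‖ + 1)) * ‖A‖) := by
        gcongr
    _ = ‖B‖ * ‖A‖ * ‖calkinMk Y T'‖ + (‖B‖ * ‖A‖) * ε / (‖B‖ * ‖A‖ + 1) := by ring
    _ ≤ ‖B‖ * ‖A‖ * ‖calkinMk Y T'‖ + ε := by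
        gcongr
        rw [div_le_iff₀ (by positivity)]
        nlinarith [norm_nonneg A, norm_nonneg B, mul_nonneg (norm_nonneg B) (norm_nonneg A)]

end

section

variable {p : ℝ≥0∞} [Fact (1 ≤ p)] {M : Set ℂ} [CompactSpace M]

/-- the infinite direct sum of copies of `r`, on `X` by means of `Φ` -/
def rInf {X : Type} [NormedAddCommGroup X] [NormedSpace ℂ X]
    (Φ : lp (fun _ : ℕ => X) p ≃L[ℂ] X) (r : C(M, ℂ) →ₐ[ℂ] (X →L[ℂ] X)) :
    C(M, ℂ) →ₐ[ℂ] (X →L[ℂ] X) where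
  toFun a := (Φ : lp (fun _ : ℕ => X) p →L[ℂ] X) ∘L
    (lp.mapCLM p (fun _ => r a) (norm_nonneg (r a)) (fun _ => le_rfl)) ∘L
    (Φ.symm : X →L[ℂ] lp (fun _ : ℕ => X) p)
  map_add' a b := by
    refine ContinuousLinearMap.ext fun x => ?_
    change Φ _ = Φ _ + Φ _
    rw [← map_add]
    congr 1
    refine lp.ext (funext fun n => ?_)
    change r (a + b) (Φ.symm x n) = r a (Φ.symm x n) + r b (Φ.symm x n)
    rw [map_add]
    rfl
  map_mul' a b := by
    refine ContinuousLinearMap.ext fun x => ?_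
    change Φ _ = Φ _
    congr 1
    refine lp.ext (funext fun n => ?_)
    change r (a * b) (Φ.symm x n) = r a (Φ.symm (Φ _) n)
    rw [Φ.symm_apply_apply, map_mul]
    rfl
  map_one' := by
    refine ContinuousLinearMap.ext fun x => ?_
    change Φ _ = x
    conv_rhs => rw [← Φ.apply_symm_apply x]
    congr 1
    refine lp.ext (funext fun n => ?_)
    change r 1 (Φ.symm x n) = Φ.symm x n
    rw [map_one]
    rfl
  map_zero' := by
    refine ContinuousLinearMap.ext fun x => ?_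
    change Φ _ = 0
    rw [← map_zero Φ]
    congr 1
    refine lp.ext (funext fun n => ?_)
    change r 0 (Φ.symm x n) = 0
    rw [map_zero]
    rfl
  commutes' c := by
    refine ContinuousLinearMap.ext fun x => ?_
    change Φ _ = c • x
    conv_rhs => rw [← Φ.apply_symm_apply x, ← map_smul]
    congr 1
    refine lp.ext (funext fun n => ?_)
    change r (algebraMap ℂ C(M, ℂ) c) (Φ.symm x n) = c • (Φ.symm x n)
    rw [AlgHom.commutes]
    rfl

omit [CompactSpace M] in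
lemma rInf_apply {X : Type} [NormedAddCommGroup X] [NormedSpace ℂ X]
    (Φ : lp (fun _ : ℕ => X) p ≃L[ℂ] X) (r : C(M, ℂ) →ₐ[ℂ] (X →L[ℂ] X)) (a : C(M, ℂ))
    (y : lp (fun _ : ℕ => X) p) (n : ℕ) :
    Φ.symm (rInf Φ r a (Φ y)) n = r a (y n) := by
  change Φ.symm (Φ _) n = _
  rw [Φ.symm_apply_apply]
  change r a (Φ.symm (Φ y) n) = r a (y n)
  rw [Φ.symm_apply_apply]

omit [CompactSpace M] in
lemma rInf_symm {X : Type} [NormedAddCommGroup X] [NormedSpace ℂ X]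
    (Φ : lp (fun _ : ℕ => X) p ≃L[ℂ] X) (r : C(M, ℂ) →ₐ[ℂ] (X →L[ℂ] X)) (a : C(M, ℂ))
    (x : X) (n : ℕ) :
    Φ.symm (rInf Φ r a x) n = r a (Φ.symm x n) := by
  change Φ.symm (Φ _) n = _
  rw [Φ.symm_apply_apply]
  rfl

end

/-- Module TRIV. -/
theorem trivAbs (hP : PelStmt) (hS : SemiStmt) : TrivAbsStmt := by
  intro p _ hp M _ hM θ τ hθ hτ S
  obtain ⟨-, -, hrefl, hsymm, htrans, hcongr, -, hassoc⟩ := hS p M
  obtain ⟨⟨Φ⟩, -⟩ := hP p hp
  obtain ⟨⟨C₀, hC₀, hτ₀⟩, r, ⟨C₁, hC₁, hr⟩, hτr⟩ := hτ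
  set τi : C(M, ℂ) →ₐ[ℂ] Calkin (LP p) := (calkinMk (LP p)).comp (rInf Φ r) with hτi
  have hτia : ∀ a, τi a = calkinMk (LP p) (rInf Φ r a) := fun a => rfl
  -- the sum with the infinite sum
  have h1 : ExtEquiv (extSum S τ τi) τi := by
    obtain ⟨Rs, hR0, hR1⟩ := exists_right (F := LP p) hp
    obtain ⟨Ls, hL⟩ := exists_left (F := LP p) hp
    let S0 : LP p →L[ℂ] lp (fun _ : ℕ => LP p) p :=
      lp.singleContinuousLinearMap ℂ (fun _ : ℕ => LP p) p 0
    have hS00 : ∀ y : LP p, S0 y 0 = y := fun y =>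
      lp.single_apply_self (E := fun _ : ℕ => LP p) p 0 y
    have hS01 : ∀ (y : LP p) n, S0 y (n + 1) = 0 := fun y n =>
      lp.single_apply_ne (E := fun _ : ℕ => LP p) p 0 y (Nat.succ_ne_zero n)
    let A : (LP p × LP p) →L[ℂ] LP p :=
      (Φ : lp (fun _ : ℕ => LP p) p →L[ℂ] LP p) ∘L
        (S0 ∘L ContinuousLinearMap.fst ℂ _ _ +
          Rs ∘L (Φ.symm : LP p →L[ℂ] lp (fun _ : ℕ => LP p) p) ∘L
            ContinuousLinearMap.snd ℂ _ _)
    let B : LP p →L[ℂ] (LP p × LP p) :=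
      ((lp.evalCLM ℂ (fun _ : ℕ => LP p) p 0).prod
        ((Φ : lp (fun _ : ℕ => LP p) p →L[ℂ] LP p) ∘L Ls)) ∘L
        (Φ.symm : LP p →L[ℂ] lp (fun _ : ℕ => LP p) p)
    have hA0 : ∀ z, Φ.symm (A z) 0 = z.1 := fun z => by
      change Φ.symm (Φ (S0 z.1 + Rs (Φ.symm z.2))) 0 = z.1
      rw [Φ.symm_apply_apply]
      change S0 z.1 0 + Rs (Φ.symm z.2) 0 = z.1
      rw [hS00, hR0, add_zero]
    have hA1 : ∀ z n, Φ.symm (A z) (n + 1) = Φ.symm z.2 n := fun z n => by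
      change Φ.symm (Φ (S0 z.1 + Rs (Φ.symm z.2))) (n + 1) = _
      rw [Φ.symm_apply_apply]
      change S0 z.1 (n + 1) + Rs (Φ.symm z.2) (n + 1) = _
      rw [hS01, hR1, zero_add]
    have hB1 : ∀ x, (B x).1 = Φ.symm x 0 := fun x => rfl
    have hB2 : ∀ x n, Φ.symm (B x).2 n = Φ.symm x (n + 1) := fun x n => by
      change Φ.symm (Φ (Ls (Φ.symm x))) n = _
      rw [Φ.symm_apply_apply, hL]
    have hBA : ∀ z, B (A z) = z := fun z => by
      refine Prod.ext ?_ ?_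
      · rw [hB1, hA0]
      · apply Φ.symm.injective
        refine lp.ext (funext fun n => ?_)
        rw [hB2, hA1]
    have hAB : ∀ x, A (B x) = x := fun x => by
      apply Φ.symm.injective
      refine lp.ext (funext fun n => ?_)
      cases n with
      | zero => rw [hA0, hB1]
      | succ n => rw [hA1, hB2]
    -- intertwining
    have hint : ∀ a z, A (r a z.1, rInf Φ r a z.2) = rInf Φ r a (A z) := fun a z => by
      apply Φ.symm.injective
      refine lp.ext (funext fun n => ?_)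
      rw [rInf_symm]
      cases n with
      | zero => rw [hA0, hA0]
      | succ n =>
        rw [hA1, hA1]
        exact rInf_symm Φ r a z.2 n
    let W : (LP p →L[ℂ] LP p)ˣ :=
      { val := A ∘L (S.symm : LP p →L[ℂ] (LP p × LP p))
        inv := (S : (LP p × LP p) →L[ℂ] LP p) ∘L B
        val_inv := by
          refine ContinuousLinearMap.ext fun x => ?_
          change A (S.symm (S (B x))) = x
          rw [S.symm_apply_apply, hAB]
        inv_val := by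
          refine ContinuousLinearMap.ext fun x => ?_
          change S (B (A (S.symm x))) = x
          rw [hBA, S.apply_symm_apply] }
    refine ⟨W, fun a => ?_⟩
    have h2 : extSum S τ τi a = calkinMk (LP p) (conjSum S (r a) (rInf Φ r a)) := by
      change calkinSum S (τ a) (τi a) = _
      rw [hτr, hτia, calkinSum_mk]
    rw [h2, ← map_mul, ← map_mul, hτia]
    congr 1
    refine ContinuousLinearMap.ext fun x => ?_
    change rInf Φ r a x = A (S.symm (S (r a (S.symm (S (B x))).1,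
      rInf Φ r a (S.symm (S (B x))).2)))
    rw [S.symm_apply_apply, S.symm_apply_apply, hint, hAB]
  -- the infinite sum is an isomorphic extension
  have h2 : IsIsoExt τi := by
    set D : ℝ := ‖(Φ : lp (fun _ : ℕ => LP p) p →L[ℂ] LP p)‖ *
      ‖(Φ.symm : LP p →L[ℂ] lp (fun _ : ℕ => LP p) p)‖ + 1 with hD
    have hD1 : 1 ≤ D := by
      rw [hD]
      have : 0 ≤ ‖(Φ : lp (fun _ : ℕ => LP p) p →L[ℂ] LP p)‖ *
        ‖(Φ.symm : LP p →L[ℂ] lp (fun _ : ℕ => LP p) p)‖ := by positivity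
      linarith
    have hup : ∀ a, ‖τi a‖ ≤ D * (C₁ * ‖a‖) := by
      intro a
      have e1 : ‖rInf Φ r a‖ ≤ ‖(Φ : lp (fun _ : ℕ => LP p) p →L[ℂ] LP p)‖ * (‖r a‖ *
            ‖(Φ.symm : LP p →L[ℂ] lp (fun _ : ℕ => LP p) p)‖) := by
        have e2 := ContinuousLinearMap.opNorm_comp_le (Φ : lp (fun _ : ℕ => LP p) p →L[ℂ] LP p)
          ((lp.mapCLM p (fun _ => r a) (norm_nonneg (r a)) (fun _ => le_rfl)) ∘L
            (Φ.symm : LP p →L[ℂ] lp (fun _ : ℕ => LP p) p))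
        have e3 := ContinuousLinearMap.opNorm_comp_le
          (lp.mapCLM p (fun _ => r a) (norm_nonneg (r a)) (fun _ => le_rfl))
            (Φ.symm : LP p →L[ℂ] lp (fun _ : ℕ => LP p) p)
        have e4 : ‖lp.mapCLM p (fun _ : ℕ => r a) (norm_nonneg (r a)) (fun _ => le_rfl)‖ ≤ ‖r a‖ :=
          lp.norm_mapCLM_le p _ _ _
        exact e2.trans (mul_le_mul_of_nonneg_left
          (e3.trans (mul_le_mul_of_nonneg_right e4 (norm_nonneg _))) (norm_nonneg _))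
      calc ‖τi a‖ ≤ ‖rInf Φ r a‖ := calkin_norm_le _
        _ ≤ ‖(Φ : lp (fun _ : ℕ => LP p) p →L[ℂ] LP p)‖ * (‖r a‖ *
            ‖(Φ.symm : LP p →L[ℂ] lp (fun _ : ℕ => LP p) p)‖) := e1
        _ = (‖(Φ : lp (fun _ : ℕ => LP p) p →L[ℂ] LP p)‖ *
            ‖(Φ.symm : LP p →L[ℂ] lp (fun _ : ℕ => LP p) p)‖) * ‖r a‖ := by ring
        _ ≤ D * (C₁ * ‖a‖) := by
            refine mul_le_mul ?_ (hr a).2 (norm_nonneg _) (by linarith)
            rw [hD]; linarith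
    have hlow : ∀ a, ‖τ a‖ ≤ D * ‖τi a‖ := by
      intro a
      rw [hτr, hτia]
      let S0 : LP p →L[ℂ] lp (fun _ : ℕ => LP p) p :=
        lp.singleContinuousLinearMap ℂ (fun _ : ℕ => LP p) p 0
      let ev : lp (fun _ : ℕ => LP p) p →L[ℂ] LP p := lp.evalCLM ℂ (fun _ : ℕ => LP p) p 0
      have hS0 : ‖S0‖ ≤ 1 := by
        refine ContinuousLinearMap.opNorm_le_bound _ zero_le_one fun x => ?_
        rw [one_mul]
        exact (lp.norm_single (E := fun _ : ℕ => LP p)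
          (zero_lt_one.trans_le (Fact.out : (1 : ℝ≥0∞) ≤ p)) 0 x).le
      have hev : ‖ev‖ ≤ 1 := by
        refine ContinuousLinearMap.opNorm_le_bound _ zero_le_one fun x => ?_
        rw [one_mul]
        exact lp.norm_apply_le_norm (zero_lt_one.trans_le (Fact.out : (1 : ℝ≥0∞) ≤ p)).ne' x 0
      refine (calkin_norm_compress (r a) (rInf Φ r a)
        ((Φ : lp (fun _ : ℕ => LP p) p →L[ℂ] LP p) ∘L S0)
        (ev ∘L (Φ.symm : LP p →L[ℂ] lp (fun _ : ℕ => LP p) p)) ?_).trans ?_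
      · refine ContinuousLinearMap.ext fun x => ?_
        change Φ.symm (rInf Φ r a (Φ (S0 x))) 0 = r a x
        rw [rInf_apply]
        exact congrArg (r a) (lp.single_apply_self (E := fun _ : ℕ => LP p) p 0 x)
      · refine mul_le_mul_of_nonneg_right ?_ (calkin_norm_nonneg _)
        have h3 : ‖ev ∘L (Φ.symm : LP p →L[ℂ] lp (fun _ : ℕ => LP p) p)‖ ≤
            ‖(Φ.symm : LP p →L[ℂ] lp (fun _ : ℕ => LP p) p)‖ :=
          (ContinuousLinearMap.opNorm_comp_le _ _).trans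
            (mul_le_of_le_one_left (norm_nonneg _) hev)
        have h4 : ‖(Φ : lp (fun _ : ℕ => LP p) p →L[ℂ] LP p) ∘L S0‖ ≤
            ‖(Φ : lp (fun _ : ℕ => LP p) p →L[ℂ] LP p)‖ :=
          (ContinuousLinearMap.opNorm_comp_le _ _).trans
            (mul_le_of_le_one_right (norm_nonneg _) hS0)
        calc _ ≤ ‖(Φ.symm : LP p →L[ℂ] lp (fun _ : ℕ => LP p) p)‖ *
              ‖(Φ : lp (fun _ : ℕ => LP p) p →L[ℂ] LP p)‖ :=
              mul_le_mul h3 h4 (norm_nonneg _) (norm_nonneg _)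
          _ ≤ D := by rw [hD]; linarith [mul_comm ‖(Φ.symm : LP p →L[ℂ]
                lp (fun _ : ℕ => LP p) p)‖ ‖(Φ : lp (fun _ : ℕ => LP p) p →L[ℂ] LP p)‖]
    have hC0 : 0 < C₀ := zero_lt_one.trans_le hC₀
    have hC1 : 0 < C₁ := zero_lt_one.trans_le hC₁
    have hD0 : 0 < D := zero_lt_one.trans_le hD1
    refine ⟨D * C₀ * C₁, ?_, fun a => ⟨?_, ?_⟩⟩
    · nlinarith [mul_nonneg (sub_nonneg.2 hD1) (sub_nonneg.2 hC₀), mul_pos hD0 hC0]
    · have h3 := (hτ₀ a).1.trans (hlow a)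
      have h4 : ‖a‖ ≤ C₀ * (D * ‖τi a‖) := by
        rwa [inv_mul_le_iff₀ hC0] at h3
      rw [inv_mul_le_iff₀ (by positivity)]
      calc ‖a‖ ≤ C₀ * (D * ‖τi a‖) := h4
        _ = D * C₀ * 1 * ‖τi a‖ := by ring
        _ ≤ D * C₀ * C₁ * ‖τi a‖ := by gcongr
    · calc ‖τi a‖ ≤ D * (C₁ * ‖a‖) := hup a
        _ = D * 1 * C₁ * ‖a‖ := by ring
        _ ≤ D * C₀ * C₁ * ‖a‖ := by gcongr
  -- absorption
  obtain ⟨φ', hφ', S', hS'⟩ := hθ.2.2 τi h2
  have h3 : ExtEquiv (extSum S τ θ) (extSum S τ (extSum S τi φ')) :=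
    hcongr S S _ _ _ _ (hrefl τ) (htrans _ _ _ (hsymm _ _ hS')
      (hcongr S' S _ _ _ _ (hrefl τi) (hrefl φ')))
  have h4 : ExtEquiv (extSum S τ (extSum S τi φ')) (extSum S (extSum S τ τi) φ') :=
    hsymm _ _ (hassoc S S τ τi φ')
  have h5 : ExtEquiv (extSum S (extSum S τ τi) φ') (extSum S' τi φ') :=
    hcongr S S' _ _ _ _ h1 (hrefl φ')
  exact htrans _ _ _ h3 (htrans _ _ _ h4 (htrans _ _ _ h5 hS'))

end Pool.Agent.H19.BDFP
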